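import Pool.Agent.Helper635_PD4.Rac
import Pool.Agent.W461.SG.NIL

/-!
# Exactness of the Davis complex of a right-angled Coxeter group, pointwise form

Chains are functions on `W G × Finset V` which change the sign when one crosses a wall of the cell; the boundary is
the simplicial boundary in the second variable. We fill cycles by induction on the length of the longest group
element in the support: over a group element `w` of maximal length the chain lives on the full simplex of the right
descents of `w`, and is the boundary of a cone.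
-/

set_option autoImplicit false

noncomputable section

namespace Pool.Agent.V8H1.LT

open Pool.Agent.W907.SG Pool.Agent.W461.SGN

section cone

variable {V : Type} [Fintype V] [LinearOrder V]

/-- the simplicial boundary -/
def bz (c : Finset V → ℤ) (T : Finset V) : ℤ := ∑ v ∈ Tᶜ, sg v T * c (insert v T)

/-- the cone -/
def cone (s : V) (c : Finset V → ℤ) (T : Finset V) : ℤ :=
  if s ∈ T then sg s (T.erase s) * c (T.erase s) else 0

omit [Fintype V] in
theorem sign_aux (v s : V) (T : Finset V) (hvs : v ≠ s) (hv : v ∉ T) (hs : s ∉ T) :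
    sg v (insert s T) * sg s (insert v T) + sg s T * sg v T = 0 := by
  have h := sg_swap v s T hvs hv hs
  rcases sg_eq_or v (insert s T) with h1 | h1 <;> rcases sg_eq_or s (insert v T) with h2 | h2 <;>
    rcases sg_eq_or s T with h3 | h3 <;> rcases sg_eq_or v T with h4 | h4 <;>
    rw [h1, h2, h3, h4] at h <;> rw [h1, h2, h3, h4] <;> omega

theorem bz_cone (s : V) (c : Finset V → ℤ) (T : Finset V) : bz (cone s c) T + cone s (bz c) T = c T := by
  by_cases hs : s ∈ T
  · obtain ⟨T0, hT0⟩ : ∃ T0, T0 = T.erase s := ⟨_, rfl⟩
    have hsT0 : s ∉ T0 := by rw [hT0]; exact Finset.notMem_erase s T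
    have hT : T = insert s T0 := by rw [hT0, Finset.insert_erase hs]
    have h1 : bz (cone s c) T = ∑ v ∈ Tᶜ, sg v (insert s T0) * (sg s (insert v T0) * c (insert v T0)) := by
      unfold bz
      refine Finset.sum_congr rfl fun v hv => ?_
      have hvT : v ∉ T := Finset.mem_compl.1 hv
      have hvs : v ≠ s := fun h => hvT (h ▸ hs)
      unfold cone
      rw [if_pos (Finset.mem_insert_of_mem hs)]
      have : (insert v T).erase s = insert v T0 := by
        rw [Finset.erase_insert_of_ne hvs, ← hT0]
      rw [this, ← hT]
    have h2 : cone s (bz c) T = sg s T0 * (sg s T0 * c T + ∑ v ∈ Tᶜ, sg v T0 * c (insert v T0)) := by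
      unfold cone bz
      rw [if_pos hs, ← hT0]
      have : T0ᶜ = insert s Tᶜ := by
        rw [hT0, Finset.compl_erase]
      rw [this, Finset.sum_insert (by simp [hs]), ← hT]
    have h3 : ∑ v ∈ Tᶜ, sg v (insert s T0) * (sg s (insert v T0) * c (insert v T0)) =
        - (sg s T0 * ∑ v ∈ Tᶜ, sg v T0 * c (insert v T0)) := by
      rw [Finset.mul_sum, ← Finset.sum_neg_distrib]
      refine Finset.sum_congr rfl fun v hv => ?_
      have hvT : v ∉ T := Finset.mem_compl.1 hv
      have hvs : v ≠ s := fun h => hvT (h ▸ hs)
      have hvT0 : v ∉ T0 := fun h => hvT (by rw [hT]; exact Finset.mem_insert_of_mem h)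
      have := sign_aux v s T0 hvs hvT0 hsT0
      linear_combination (c (insert v T0)) * this
    rw [h1, h2, h3]
    have := sg_mul_self s T0
    linear_combination (c T) * this
  · have h1 : cone s (bz c) T = 0 := if_neg hs
    have h2 : bz (cone s c) T = c T := by
      unfold bz
      rw [Finset.sum_eq_single s]
      · unfold cone
        rw [if_pos (Finset.mem_insert_self s T), Finset.erase_insert hs, ← mul_assoc, sg_mul_self, one_mul]
      · intro v hv hvs
        unfold cone
        rw [if_neg, mul_zero]
        rw [Finset.mem_insert]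
        rintro (h | h)
        · exact hvs h.symm
        · exact hs h
      · intro h
        exact absurd (Finset.mem_compl.2 hs) h
    rw [h1, h2, add_zero]

theorem bz_bz (c : Finset V → ℤ) (T : Finset V) : bz (bz c) T = 0 := by
  unfold bz
  have h1 : ∀ v ∈ Tᶜ, sg v T * ∑ u ∈ (insert v T)ᶜ, sg u (insert v T) * c (insert u (insert v T)) =
      ∑ u ∈ (insert v T)ᶜ, sg v T * (sg u (insert v T) * c (insert u (insert v T))) := fun v _ =>
    Finset.mul_sum _ _ _
  rw [Finset.sum_congr rfl h1, Finset.sum_sigma']
  refine Finset.sum_involution (fun (x : Σ _ : V, V) _ => ⟨x.2, x.1⟩) ?_ ?_ ?_ ?_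
  · rintro ⟨v, u⟩ h
    simp only [Finset.mem_sigma, Finset.mem_compl, Finset.mem_insert, not_or] at h
    obtain ⟨hv, huv, hu⟩ := h
    simp only
    rw [Finset.insert_comm v u T]
    have hs := sg_swap u v T huv hu hv
    linear_combination (c (insert u (insert v T))) * hs
  · rintro ⟨v, u⟩ h _ h3
    simp only [Finset.mem_sigma, Finset.mem_compl, Finset.mem_insert, not_or] at h
    simp only [Sigma.mk.injEq, heq_eq_eq] at h3
    exact h.2.1 h3.1
  · rintro ⟨v, u⟩ h
    simp only [Finset.mem_sigma, Finset.mem_compl, Finset.mem_insert, not_or] at h ⊢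
    exact ⟨h.2.2, fun e => h.2.1 e.symm, h.1⟩
  · rintro ⟨v, u⟩ _
    rfl

theorem bz_add (c d : Finset V → ℤ) (T : Finset V) : bz (fun T => c T + d T) T = bz c T + bz d T := by
  unfold bz
  rw [← Finset.sum_add_distrib]
  exact Finset.sum_congr rfl fun v _ => by ring

theorem bz_sub (c d : Finset V → ℤ) (T : Finset V) : bz (fun T => c T - d T) T = bz c T - bz d T := by
  unfold bz
  rw [← Finset.sum_sub_distrib]
  exact Finset.sum_congr rfl fun v _ => by ring

end cone

end Pool.Agent.V8H1.LT
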