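import Pool.Agent.V8H1.LT.Exact

/-!
# The dictionary between chains with coefficients in `ℤ[Γ]` and functions on `W G × Finset V`
-/

set_option autoImplicit false

open scoped Matrix

noncomputable section

namespace Pool.Agent.V8H1.LT

open Pool.Agent.W907.SG Pool.Agent.W461.SGN Pool.Agent.N496.LT

variable {V : Type} [Fintype V] [LinearOrder V] (G : SimpleGraph V)

open Classical in
/-- there are finitely many orbits of cells -/
instance fintypeCell : Fintype (Cell G) := Subtype.fintype _

/-- the group ring -/
abbrev ZK {V : Type} (G : SimpleGraph V) : Type := MonoidAlgebra ℤ (th G).ker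

theorem mem_par_mul_rep (w : W G) (B : Finset V) (v : V) :
    v ∈ par G (w * rep G B) ↔ (v ∈ par G w ↔ v ∉ B) := by
  rw [mem_par, mem_par, map_mul, Pi.mul_apply, th_rep]
  rcases Int.units_eq_one_or (th G w v) with h | h <;> by_cases hB : v ∈ B <;> simp [h, hB]

theorem par_mul_rep_inter (w : W G) (T : Finset V) : par G (w * rep G (T ∩ par G w)) = par G w \ T := by
  ext v
  rw [mem_par_mul_rep, Finset.mem_inter, Finset.mem_sdiff]
  tauto

theorem par_ker (γ : (th G).ker) (A : Finset V) : par G (γ.1 * rep G A) = A := by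
  ext v
  have h : th G γ.1 = 1 := γ.2
  rw [mem_par, map_mul, Pi.mul_apply, th_rep, h, Pi.one_apply, one_mul]
  by_cases hv : v ∈ A
  · simp [hv]
  · simp only [hv, if_false, iff_false]
    decide

theorem gm_ker (γ : (th G).ker) (A : Finset V) : gm G (γ.1 * rep G A) = γ := by
  apply Subtype.ext
  show γ.1 * rep G A * (rep G (par G (γ.1 * rep G A)))⁻¹ = γ.1
  rw [par_ker, mul_assoc, mul_inv_cancel, mul_one]

theorem gm_mul_rep (w : W G) : (gm G w).1 * rep G (par G w) = w := by
  show w * (rep G (par G w))⁻¹ * rep G (par G w) = w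
  rw [mul_assoc, inv_mul_cancel, mul_one]

open Classical in
/-- the coefficient of a pair, as an element of the group ring -/
def xf (x : Cell G → ZK G) (T A : Finset V) : ZK G :=
  if h : G.IsClique (T : Set V) ∧ Disjoint T A then x ⟨(T, A), h⟩ else 0

theorem xf_cell (x : Cell G → ZK G) (c : Cell G) : xf G x c.1.1 c.1.2 = x c := by
  unfold xf
  rw [dif_pos c.2]

theorem xf_of (x : Cell G → ZK G) (T A : Finset V) (h : G.IsClique (T : Set V) ∧ Disjoint T A) :
    xf G x T A = x ⟨(T, A), h⟩ := by
  unfold xf
  rw [dif_pos h]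

theorem xf_of_not (x : Cell G → ZK G) (T A : Finset V) (h : ¬ G.IsClique (T : Set V)) : xf G x T A = 0 := by
  unfold xf
  rw [dif_neg fun h1 => h h1.1]

/-- the coefficient of the cube `w W_T`, oriented by the corner `w` -/
def co (x : Cell G → ZK G) (w : W G) (T : Finset V) : ℤ :=
  (-1) ^ (T ∩ par G w).card * (xf G x T (par G w \ T)).coeff (gm G (w * rep G (T ∩ par G w)))

theorem co_ker (x : Cell G → ZK G) (γ : (th G).ker) (T A : Finset V) (h : Disjoint T A) :
    co G x (γ.1 * rep G A) T = (xf G x T A).coeff γ := by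
  unfold co
  rw [par_ker, Finset.disjoint_iff_inter_eq_empty.1 h, Finset.card_empty, pow_zero, one_mul, rep_empty, mul_one,
    gm_ker, Finset.sdiff_eq_self_of_disjoint h.symm]

theorem co_cell (x : Cell G → ZK G) (γ : (th G).ker) (c : Cell G) :
    co G x (γ.1 * rep G c.1.2) c.1.1 = (x c).coeff γ := by
  rw [co_ker G x γ c.1.1 c.1.2 c.2.2, xf_cell]

theorem co_supp (x : Cell G → ZK G) (w : W G) (T : Finset V) (h : ¬ G.IsClique (T : Set V)) : co G x w T = 0 := by
  unfold co
  rw [xf_of_not G x T _ h]
  simp

theorem par_mul_simple_mem (w : W G) (t v : V) :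
    v ∈ par G (w * (cox G).simple t) ↔ (if v = t then v ∉ par G w else v ∈ par G w) := by
  split_ifs with h
  · subst h
    rw [mem_par, mem_par, th_self]
    rcases Int.units_eq_one_or (th G w v) with h | h <;> simp [h]
  · rw [mem_par, mem_par, th_other G w v t h]

theorem co_anti (x : Cell G → ZK G) (w : W G) (T : Finset V) (t : V) (ht : t ∈ T) :
    co G x (w * (cox G).simple t) T = - co G x w T := by
  by_cases hT : G.IsClique (T : Set V)
  · have h1 : par G (w * (cox G).simple t) \ T = par G w \ T := by
      ext v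
      rw [Finset.mem_sdiff, Finset.mem_sdiff, par_mul_simple_mem]
      by_cases hv : v = t
      · subst hv
        simp [ht]
      · simp [hv]
    by_cases hp : t ∈ par G w
    · have h2 : T ∩ par G w = insert t (T ∩ par G (w * (cox G).simple t)) := by
        ext v
        rw [Finset.mem_insert, Finset.mem_inter, Finset.mem_inter, par_mul_simple_mem]
        by_cases hv : v = t
        · subst hv
          simp [ht, hp]
        · simp [hv]
      have h3 : t ∉ T ∩ par G (w * (cox G).simple t) := by
        rw [Finset.mem_inter, par_mul_simple_mem, if_pos rfl]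
        simp [hp]
      have hc : G.IsClique ((insert t (T ∩ par G (w * (cox G).simple t)) : Finset V) : Set V) := by
        rw [← h2]
        exact clique_sub G Finset.inter_subset_left hT
      unfold co
      rw [h1, h2, Finset.card_insert_of_notMem h3, rep_insert G _ t h3 hc, ← mul_assoc w, pow_succ]
      ring
    · have h2 : T ∩ par G (w * (cox G).simple t) = insert t (T ∩ par G w) := by
        ext v
        rw [Finset.mem_insert, Finset.mem_inter, Finset.mem_inter, par_mul_simple_mem]
        by_cases hv : v = t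
        · subst hv
          simp [ht, hp]
        · simp [hv]
      have h3 : t ∉ T ∩ par G w := by
        rw [Finset.mem_inter]
        simp [hp]
      have hc : G.IsClique ((insert t (T ∩ par G w) : Finset V) : Set V) := by
        rw [← h2]
        exact clique_sub G Finset.inter_subset_left hT
      unfold co
      rw [h1, h2, Finset.card_insert_of_notMem h3, mul_assoc w, simple_mul_rep_insert G _ t h3 hc, pow_succ]
      ring
  · rw [co_supp G x _ T hT, co_supp G x _ T hT, neg_zero]

/-- the two faces in the direction `v` -/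
def fc (v : V) (A A' : Finset V) : ZK G :=
  (if A' = A then 1 else 0) - (if A' = insert v A then
    MonoidAlgebra.single (gm G (rep G A * (cox G).simple v)) 1 else 0)

theorem cf_eq (T A T' A' : Finset V) : cf G T A T' A' =
    ∑ v ∈ T'ᶜ, if T = insert v T' then ((sg v T' : ℤ) : ZK G) * fc G v A A' else 0 := by
  classical
  have h1 : cf G T A T' A' = ∑ t ∈ T, if T' = T.erase t then
      ((sg t (T.erase t) : ℤ) : ZK G) * fc G t A A' else 0 := by
    unfold cf fc
    refine Finset.sum_congr rfl fun t _ => ?_
    split_ifs <;> rfl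
  have h2 : ∀ (S : Finset V) (f : V → ZK G), ∑ t ∈ S, f t = ∑ t, if t ∈ S then f t else 0 := by
    intro S f
    rw [Finset.sum_ite_mem, Finset.univ_inter]
  rw [h1, h2 T, h2 T'ᶜ]
  refine Finset.sum_congr rfl fun v _ => ?_
  by_cases h : v ∈ T ∧ T' = T.erase v
  · have h3 : v ∉ T' := by rw [h.2]; exact Finset.notMem_erase v T
    have h4 : T = insert v T' := by rw [h.2, Finset.insert_erase h.1]
    rw [if_pos h.1, if_pos h.2, if_pos (Finset.mem_compl.2 h3), if_pos h4, ← h.2]
  · have h3 : ¬ (v ∈ T'ᶜ ∧ T = insert v T') := by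
      rintro ⟨h4, h5⟩
      apply h
      rw [h5]
      exact ⟨Finset.mem_insert_self v T', by rw [Finset.erase_insert (Finset.mem_compl.1 h4)]⟩
    have e1 : (if v ∈ T then (if T' = T.erase v then ((sg v (T.erase v) : ℤ) : ZK G) * fc G v A A' else 0) else 0) =
        0 := by
      by_cases h4 : v ∈ T
      · rw [if_pos h4, if_neg fun h5 => h ⟨h4, h5⟩]
      · rw [if_neg h4]
    have e2 : (if v ∈ T'ᶜ then (if T = insert v T' then ((sg v T' : ℤ) : ZK G) * fc G v A A' else 0) else 0) =
        0 := by
      by_cases h4 : v ∈ T'ᶜ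
      · rw [if_pos h4, if_neg fun h5 => h3 ⟨h4, h5⟩]
      · rw [if_neg h4]
    rw [e1, e2]

open Classical in
theorem sum_xf (x : Cell G → ZK G) (T A : Finset V) (z : ZK G) :
    ∑ c : Cell G, (if c.1 = (T, A) then x c * z else 0) = xf G x T A * z := by
  by_cases h : G.IsClique (T : Set V) ∧ Disjoint T A
  · rw [xf_of G x T A h, Finset.sum_eq_single ⟨(T, A), h⟩]
    · rw [if_pos rfl]
    · intro c _ hc
      rw [if_neg]
      intro h1
      exact hc (Subtype.ext h1)
    · intro h1
      exact absurd (Finset.mem_univ _) h1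
  · have h1 : xf G x T A = 0 := by
      unfold xf
      rw [dif_neg h]
    rw [h1, zero_mul]
    refine Finset.sum_eq_zero fun c _ => ?_
    rw [if_neg]
    intro h2
    apply h
    have := c.2
    rw [h2] at this
    exact this

theorem gm_shift (γ : (th G).ker) (A : Finset V) (v : V) (hv : v ∈ A) :
    gm G (γ.1 * rep G A * (cox G).simple v) =
      γ * (gm G (rep G (A.erase v) * (cox G).simple v))⁻¹ := by
  apply Subtype.ext
  rw [Subgroup.coe_mul, Subgroup.coe_inv, gm_val G (A.erase v) v (Finset.notMem_erase v A), Finset.insert_erase hv]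
  show γ.1 * rep G A * (cox G).simple v * (rep G (par G (γ.1 * rep G A * (cox G).simple v)))⁻¹ = _
  have h : par G (γ.1 * rep G A * (cox G).simple v) = A.erase v := by
    ext u
    rw [par_mul_simple_mem, par_ker, Finset.mem_erase]
    by_cases hu : u = v
    · subst hu
      simp [hv]
    · simp [hu]
  rw [h]
  have hs : ((cox G).simple v)⁻¹ = (cox G).simple v := by
    rw [inv_eq_iff_mul_eq_one]
    exact simple_mul_self G v
  rw [mul_inv_rev, mul_inv_rev, hs, inv_inv]
  simp only [mul_assoc]

/-- the contribution of the direction `v` -/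
theorem term (x : Cell G → ZK G) (T' A' : Finset V) (hd : Disjoint T' A') (γ : (th G).ker) (v : V) (hv : v ∉ T') :
    (∑ c : Cell G, x c * (if c.1.1 = insert v T' then ((sg v T' : ℤ) : ZK G) * fc G v c.1.2 A' else 0)).coeff γ =
      sg v T' * co G x (γ.1 * rep G A') (insert v T') := by
  classical
  by_cases hvA : v ∈ A'
  · have h1 : ∀ c : Cell G, x c * (if c.1.1 = insert v T' then ((sg v T' : ℤ) : ZK G) * fc G v c.1.2 A' else 0) =
        if c.1 = (insert v T', A'.erase v) then x c *
          MonoidAlgebra.single (gm G (rep G (A'.erase v) * (cox G).simple v)) (- sg v T') else 0 := by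
      intro c
      by_cases h2 : c.1.1 = insert v T'
      · have hvc : v ∉ c.1.2 := fun h3 => Finset.disjoint_left.1 c.2.2 (by rw [h2]; exact Finset.mem_insert_self v T') h3
        rw [if_pos h2]
        by_cases h3 : c.1.2 = A'.erase v
        · rw [if_pos (Prod.ext h2 h3)]
          congr 1
          unfold fc
          rw [if_neg (fun h4 : A' = c.1.2 => hvc (h4 ▸ hvA)), if_pos (by rw [h3, Finset.insert_erase hvA]), h3, zero_sub, mul_neg,
            MonoidAlgebra.single_neg]
          congr 1
          rw [← zsmul_eq_mul, MonoidAlgebra.smul_single]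
          simp
        · rw [if_neg fun h4 => h3 (congrArg Prod.snd h4)]
          unfold fc
          rw [if_neg (fun h4 : A' = c.1.2 => hvc (h4 ▸ hvA)), if_neg, sub_zero, mul_zero, mul_zero]
          intro h4
          apply h3
          rw [h4, Finset.erase_insert hvc]
      · rw [if_neg h2, if_neg fun h4 => h2 (congrArg Prod.fst h4), mul_zero]
    rw [Finset.sum_congr rfl fun c _ => h1 c, sum_xf, MonoidAlgebra.coeff_mul_single_apply]
    have h2 : co G x (γ.1 * rep G A') (insert v T') = - (xf G x (insert v T') (A'.erase v)).coeff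
        (γ * (gm G (rep G (A'.erase v) * (cox G).simple v))⁻¹) := by
      unfold co
      rw [par_ker]
      have e1 : insert v T' ∩ A' = {v} := by
        ext u
        rw [Finset.mem_inter, Finset.mem_insert, Finset.mem_singleton]
        constructor
        · rintro ⟨h3 | h3, h4⟩
          · exact h3
          · exact absurd h4 (Finset.disjoint_left.1 hd h3)
        · rintro rfl
          exact ⟨Or.inl rfl, hvA⟩
      have e2 : A' \ insert v T' = A'.erase v := by
        ext u
        rw [Finset.mem_sdiff, Finset.mem_insert, Finset.mem_erase, not_or]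
        constructor
        · rintro ⟨h3, h4, h5⟩
          exact ⟨h4, h3⟩
        · rintro ⟨h3, h4⟩
          exact ⟨h4, h3, fun h5 => Finset.disjoint_left.1 hd h5 h4⟩
      have e3 : rep G {v} = (cox G).simple v := by simp [rep]
      rw [e1, e2, Finset.card_singleton, e3, gm_shift G γ A' v hvA, pow_one, neg_one_mul]
    rw [h2]
    ring
  · have h1 : ∀ c : Cell G, x c * (if c.1.1 = insert v T' then ((sg v T' : ℤ) : ZK G) * fc G v c.1.2 A' else 0) =
        if c.1 = (insert v T', A') then x c * MonoidAlgebra.single 1 (sg v T') else 0 := by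
      intro c
      by_cases h2 : c.1.1 = insert v T'
      · rw [if_pos h2]
        by_cases h3 : c.1.2 = A'
        · rw [if_pos (Prod.ext h2 h3)]
          congr 1
          unfold fc
          rw [if_pos h3.symm, if_neg, sub_zero, mul_one]
          · rw [← mul_one ((sg v T' : ℤ) : ZK G), MonoidAlgebra.one_def, ← zsmul_eq_mul, MonoidAlgebra.smul_single]
            simp
          · intro h4
            apply hvA
            rw [h4]
            exact Finset.mem_insert_self v _
        · rw [if_neg fun h4 => h3 (congrArg Prod.snd h4)]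
          unfold fc
          rw [if_neg (fun h4 : A' = c.1.2 => h3 h4.symm), if_neg, sub_zero, mul_zero, mul_zero]
          intro h4
          apply hvA
          rw [h4]
          exact Finset.mem_insert_self v _
      · rw [if_neg h2, if_neg fun h4 => h2 (congrArg Prod.fst h4), mul_zero]
    have hd2 : Disjoint (insert v T') A' := by
      rw [Finset.disjoint_insert_left]
      exact ⟨hvA, hd⟩
    rw [Finset.sum_congr rfl fun c _ => h1 c, sum_xf, MonoidAlgebra.coeff_mul_single_apply, co_ker G x γ _ _ hd2]
    rw [inv_one, mul_one, mul_comm]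

theorem coeff_bd (x : Cell G → ZK G) (c' : Cell G) (γ : (th G).ker) :
    ((x ᵥ* dv G) c').coeff γ = bz (co G x (γ.1 * rep G c'.1.2)) c'.1.1 := by
  have h1 : (x ᵥ* dv G) c' = ∑ v ∈ c'.1.1ᶜ, ∑ c : Cell G, x c *
      (if c.1.1 = insert v c'.1.1 then ((sg v c'.1.1 : ℤ) : ZK G) * fc G v c.1.2 c'.1.2 else 0) := by
    rw [Finset.sum_comm]
    show ∑ c, x c * dv G c c' = _
    refine Finset.sum_congr rfl fun c _ => ?_
    show x c * cf G c.1.1 c.1.2 c'.1.1 c'.1.2 = _
    rw [cf_eq, Finset.mul_sum]
  rw [h1, MonoidAlgebra.coeff_sum, Finsupp.finsetSum_apply]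
  unfold bz
  refine Finset.sum_congr rfl fun v hv => ?_
  exact term G x c'.1.1 c'.1.2 c'.2.2 γ v (Finset.mem_compl.1 hv)

/-- **The boundary is the simplicial boundary.** -/
theorem co_bd (x : Cell G → ZK G) (w : W G) (T : Finset V) : co G (x ᵥ* dv G) w T = bz (co G x w) T := by
  by_cases hT : G.IsClique (T : Set V)
  · obtain ⟨B, hB⟩ : ∃ B, B = T ∩ par G w := ⟨_, rfl⟩
    have hBT : B ⊆ T := by rw [hB]; exact Finset.inter_subset_left
    have hpar : par G (w * rep G B) = par G w \ T := by rw [hB]; exact par_mul_rep_inter G w T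
    have hcell : G.IsClique (T : Set V) ∧ Disjoint T (par G w \ T) := ⟨hT, Finset.disjoint_sdiff⟩
    have hw : (gm G (w * rep G B)).1 * rep G (par G w \ T) = w * rep G B := by
      rw [← hpar]
      exact gm_mul_rep G _
    have h1 : co G (x ᵥ* dv G) w T = (-1) ^ B.card * bz (co G x (w * rep G B)) T := by
      unfold co
      rw [← hB, xf_of G _ T _ hcell, coeff_bd G x ⟨(T, par G w \ T), hcell⟩]
      show _ * bz (co G x ((gm G (w * rep G B)).1 * rep G (par G w \ T))) T = _
      rw [hw]
      rfl
    rw [h1]
    unfold bz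
    rw [Finset.mul_sum]
    refine Finset.sum_congr rfl fun v _ => ?_
    by_cases hc : G.IsClique ((insert v T : Finset V) : Set V)
    · rw [anti_rep G (fun w => co G x w (insert v T)) (insert v T) hc
        (fun w t ht => co_anti G x w (insert v T) t ht) B (hBT.trans (Finset.subset_insert v T))]
      have : ((-1 : ℤ)) ^ B.card * (-1) ^ B.card = 1 := by
        rw [← mul_pow]
        simp
      linear_combination (sg v T * co G x w (insert v T)) * this
    · rw [co_supp G x _ _ hc, co_supp G x _ _ hc]
      ring
  · rw [co_supp G _ w T hT]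
    symm
    refine Finset.sum_eq_zero fun v _ => ?_
    rw [co_supp G x w (insert v T) fun h => hT (clique_sub G (Finset.subset_insert v T) h), mul_zero]

theorem ball_finite (N : ℕ) : {w : W G | len G w ≤ N}.Finite := by
  refine ((List.finite_length_le V N).image (wp G)).subset ?_
  intro x hx
  obtain ⟨l, hl, hwl⟩ := (cox G).toCoxeterSystem.exists_isReduced x
  refine ⟨l, ?_, hwl.symm⟩
  have : len G x = l.length := by rw [hwl]; exact hl
  simp only [Set.mem_ofPred_eq] at hx ⊢
  omega

/-- every finitely supported chain comes from the group ring -/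
theorem exists_co {n N : ℕ} (h : W G → Finset V → ℤ) (hh : Adm G n N h) :
    ∃ u : Cell G → ZK G, (∀ w T, co G u w T = h w T) ∧ ∀ c : Cell G, c.1.1.card ≠ n → u c = 0 := by
  have hfin : ∀ c : Cell G, (Function.support fun γ : (th G).ker => h (γ.1 * rep G c.1.2) c.1.1).Finite := by
    intro c
    refine Set.Finite.subset (Set.Finite.preimage (f := fun γ : (th G).ker => γ.1 * rep G c.1.2) ?_
      (ball_finite G N)) ?_
    · intro a _ b _ hab
      exact Subtype.ext (mul_right_cancel hab)
    · intro γ hγ
      by_contra h1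
      apply hγ
      apply hh.bound
      simpa using h1
  refine ⟨fun c => MonoidAlgebra.ofCoeff (Finsupp.ofSupportFinite _ (hfin c)), ?_, ?_⟩
  · intro w T
    by_cases hT : G.IsClique (T : Set V)
    · obtain ⟨B, hB⟩ : ∃ B, B = T ∩ par G w := ⟨_, rfl⟩
      have hBT : B ⊆ T := by rw [hB]; exact Finset.inter_subset_left
      have hpar : par G (w * rep G B) = par G w \ T := by rw [hB]; exact par_mul_rep_inter G w T
      have hcell : G.IsClique (T : Set V) ∧ Disjoint T (par G w \ T) := ⟨hT, Finset.disjoint_sdiff⟩
      have hw : (gm G (w * rep G B)).1 * rep G (par G w \ T) = w * rep G B := by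
        rw [← hpar]
        exact gm_mul_rep G _
      unfold co
      rw [← hB, xf_of G _ T _ hcell]
      show _ * h ((gm G (w * rep G B)).1 * rep G (par G w \ T)) T = _
      rw [hw, anti_rep G (fun w => h w T) T hT (fun w t ht => hh.anti w T t ht) B hBT]
      have : ((-1 : ℤ)) ^ B.card * (-1) ^ B.card = 1 := by
        rw [← mul_pow]
        simp
      linear_combination (h w T) * this
    · rw [co_supp G _ w T hT, hh.supp w T fun h1 => hT h1.1]
  · intro c hc
    apply MonoidAlgebra.ext
    ext γ
    show h (γ.1 * rep G c.1.2) c.1.1 = 0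
    exact hh.supp _ _ fun h1 => hc h1.2

theorem co_adm (n : ℕ) (x : Cell G → ZK G) (hx : ∀ c : Cell G, c.1.1.card ≠ n → x c = 0) :
    ∃ N, Adm G n N (co G x) := by
  obtain ⟨N0, hN0⟩ : ∃ N0, ∀ (c : Cell G) (γ : (th G).ker), (x c).coeff γ ≠ 0 → len G (γ.1 * rep G c.1.2) ≤ N0 := by
    refine ⟨Finset.univ.sup fun c : Cell G => (x c).coeff.support.sup fun γ => len G (γ.1 * rep G c.1.2), ?_⟩
    intro c γ hγ
    exact (Finset.le_sup (f := fun γ : (th G).ker => len G (γ.1 * rep G c.1.2)) (Finsupp.mem_support_iff.2 hγ)).trans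
      (Finset.le_sup (f := fun c : Cell G => (x c).coeff.support.sup fun γ => len G (γ.1 * rep G c.1.2))
        (Finset.mem_univ c))
  have hlen : ∀ A : Finset V, len G (rep G A) ≤ Fintype.card V := by
    intro A
    have h1 : len G (rep G A) ≤ (A.sort (· ≤ ·)).length := (cox G).toCoxeterSystem.length_wordProd_le _
    rw [A.length_sort] at h1
    exact h1.trans A.card_le_univ
  refine ⟨N0 + Fintype.card V, ?_, fun w T t ht => co_anti G x w T t ht, ?_⟩
  · intro w T hT
    by_cases h1 : G.IsClique (T : Set V)
    · have h2 : T.card ≠ n := fun h2 => hT ⟨h1, h2⟩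
      unfold co
      rw [xf_of G x T _ ⟨h1, Finset.disjoint_sdiff⟩, hx _ h2]
      simp
    · exact co_supp G x w T h1
  · intro w T hw
    by_contra h0
    have hT : G.IsClique (T : Set V) := by
      by_contra h1
      exact h0 (co_supp G x w T h1)
    obtain ⟨B, hB⟩ : ∃ B, B = T ∩ par G w := ⟨_, rfl⟩
    have hBT : B ⊆ T := by rw [hB]; exact Finset.inter_subset_left
    have hpar : par G (w * rep G B) = par G w \ T := by rw [hB]; exact par_mul_rep_inter G w T
    have hcell : G.IsClique (T : Set V) ∧ Disjoint T (par G w \ T) := ⟨hT, Finset.disjoint_sdiff⟩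
    have hw' : (gm G (w * rep G B)).1 * rep G (par G w \ T) = w * rep G B := by
      rw [← hpar]
      exact gm_mul_rep G _
    have h1 : (x ⟨(T, par G w \ T), hcell⟩).coeff (gm G (w * rep G B)) ≠ 0 := by
      intro h1
      apply h0
      unfold co
      rw [← hB, xf_of G x T _ hcell, h1, mul_zero]
    have h2 := hN0 _ _ h1
    have h3 : len G (w * rep G B) ≤ N0 := by
      rw [← hw']
      exact h2
    have h4 : w = w * rep G B * rep G B := by
      rw [mul_assoc, rep_mul_self G B (clique_sub G hBT hT), mul_one]
    have h5 : len G w ≤ len G (w * rep G B) + len G (rep G B) := by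
      conv_lhs => rw [h4]
      exact (cox G).toCoxeterSystem.length_mul_le _ _
    have h6 := hlen B
    omega

theorem co_inj (x y : Cell G → ZK G) (h : ∀ w T, co G x w T = co G y w T) : x = y := by
  funext c
  apply MonoidAlgebra.ext
  ext γ
  rw [← co_cell, ← co_cell, h]

theorem co_sub (x y : Cell G → ZK G) (w : W G) (T : Finset V) : co G (x - y) w T = co G x w T - co G y w T := by
  unfold co
  have : ∀ A, xf G (x - y) T A = xf G x T A - xf G y T A := by
    intro A
    unfold xf
    split_ifs
    · rfl
    · rw [sub_zero]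
  rw [this]
  have h2 : ∀ (a b : ZK G) (γ : (th G).ker), (a - b).coeff γ = a.coeff γ - b.coeff γ := fun a b γ => rfl
  rw [h2]
  ring

end Pool.Agent.V8H1.LT
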