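import Pool.Agent.V8H1.LT.Cone
import Pool.Agent.N496.LT.D2

/-!
# Exactness of the Davis complex of a right-angled Coxeter group, pointwise form: the induction
-/

set_option autoImplicit false

noncomputable section

namespace Pool.Agent.V8H1.LT

open Pool.Agent.W907.SG Pool.Agent.W461.SGN Pool.Agent.N496.LT

section cliques

variable {V : Type} [Fintype V] [LinearOrder V] (G : SimpleGraph V)

/-- `s` is a right descent of `w` -/
def Dn {V : Type} (G : SimpleGraph V) (w : W G) (s : V) : Prop := len G (w * (cox G).simple s) < len G w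

omit [Fintype V] [LinearOrder V] in
theorem rightAngled : Pool.Agent.Helper376.LC.RightAngled (cox G) := by
  intro i j hij
  show (cox G).M i j = 2 ∨ (cox G).M i j = 0
  rw [cox_apply, if_neg hij]
  split_ifs <;> simp

omit [Fintype V] [LinearOrder V] in
theorem dn_adj (w : W G) (s t : V) (hst : s ≠ t) (hs : Dn G w s) (ht : Dn G w t) : G.Adj s t := by
  have h : (cox G).M s t = 2 :=
    Pool.Agent.Helper635.PD4.desc_comm (cox G).toCoxeterSystem (rightAngled G) w s t hst hs ht
  by_contra ha
  rw [cox_apply, if_neg hst, if_neg ha] at h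
  omega

omit [Fintype V] in
theorem len_mul_rep (w : W G) (A : Finset V) (hA : ∀ s ∈ A, Dn G w s) :
    len G (w * rep G A) + A.card = len G w := by
  have := Pool.Agent.Helper635.PD4.length_mul_word (cox G).toCoxeterSystem (rightAngled G) (A.sort (· ≤ ·))
    (A.sort_nodup _) w (by intro i hi; exact hA i ((A.mem_sort _).1 hi))
  rw [A.length_sort] at this
  exact this

omit [Fintype V] [LinearOrder V] in
theorem exists_dn (w : W G) (hw : 0 < len G w) : ∃ s, Dn G w s := by
  have h1 : w ≠ 1 := by
    rintro rfl
    have : len G 1 = 0 := (cox G).toCoxeterSystem.length_one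
    omega
  exact (cox G).toCoxeterSystem.exists_rightDescent_of_ne_one h1

omit [Fintype V] in
theorem rep_empty : rep G ∅ = 1 := by simp [rep]

omit [Fintype V] in
theorem rep_insert (A : Finset V) (s : V) (hs : s ∉ A) (hc : G.IsClique ((insert s A : Finset V) : Set V)) :
    rep G (insert s A) = (cox G).simple s * rep G A := by
  unfold rep
  have hp : ((insert s A).sort (· ≤ ·)).Perm (s :: A.sort (· ≤ ·)) := by
    apply (List.perm_ext_iff_of_nodup (Finset.sort_nodup _ _) (by simp [hs])).2
    intro a
    simp [Finset.mem_sort]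
  have h2 := (hp.map (cox G).simple).prod_eq' (by
    rw [List.pairwise_map]
    refine List.Nodup.pairwise_of_forall_ne (Finset.sort_nodup _ _) ?_
    intro a ha b hb hab
    rw [Finset.mem_sort] at ha hb
    exact simple_comm G a b (hc (by exact_mod_cast ha) (by exact_mod_cast hb) hab))
  rw [h2, List.map_cons, List.prod_cons]

omit [Fintype V] in
theorem simple_mul_rep_insert (A : Finset V) (s : V) (hs : s ∉ A)
    (hc : G.IsClique ((insert s A : Finset V) : Set V)) :
    (cox G).simple s * rep G (insert s A) = rep G A := by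
  rw [rep_insert G A s hs hc, ← mul_assoc, simple_mul_self, one_mul]

omit [Fintype V] in
theorem clique_sub {A T : Finset V} (h : A ⊆ T) (hT : G.IsClique (T : Set V)) : G.IsClique (A : Set V) :=
  hT.subset (by exact_mod_cast h)

omit [Fintype V] in
/-- a function which changes the sign under the simple reflections in `T` -/
theorem anti_rep (c : W G → ℤ) (T : Finset V) (hT : G.IsClique (T : Set V))
    (h : ∀ w, ∀ t ∈ T, c (w * (cox G).simple t) = - c w) (A : Finset V) (hA : A ⊆ T) :
    ∀ w, c (w * rep G A) = (-1) ^ A.card * c w := by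
  induction A using Finset.induction_on with
  | empty => intro w; rw [rep_empty]; simp
  | insert s A hs ih =>
    intro w
    have hc := clique_sub G hA hT
    rw [rep_insert G A s hs hc, ← mul_assoc, ih (fun x hx => hA (Finset.mem_insert_of_mem hx)),
      h w s (hA (Finset.mem_insert_self s A)), Finset.card_insert_of_notMem hs, pow_succ]
    ring

/-- the alternating sum over the coset -/
def fold (k : W G → Finset V → ℤ) (x : W G) (T : Finset V) : ℤ :=
  ∑ A ∈ T.powerset, (-1) ^ A.card * k (x * rep G A) T

omit [Fintype V] in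
theorem fold_anti (k : W G → Finset V → ℤ) (hk : ∀ w (T : Finset V), ¬ G.IsClique (T : Set V) → k w T = 0) (x : W G)
    (T : Finset V) (t : V) (ht : t ∈ T) : fold G k (x * (cox G).simple t) T = - fold G k x T := by
  by_cases hT : G.IsClique (T : Set V)
  · obtain ⟨T0, hT0⟩ : ∃ T0, T0 = T.erase t := ⟨_, rfl⟩
    have htT0 : t ∉ T0 := by rw [hT0]; exact Finset.notMem_erase t T
    have hTT : T = insert t T0 := by rw [hT0, Finset.insert_erase ht]
    have e : ∀ f : Finset V → ℤ, ∑ A ∈ T.powerset, f A = ∑ A ∈ T0.powerset, (f A + f (insert t A)) := by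
      intro f
      rw [hTT, Finset.sum_powerset_insert htT0, Finset.sum_add_distrib]
    unfold fold
    rw [e, e, ← Finset.sum_neg_distrib]
    refine Finset.sum_congr rfl fun A hA => ?_
    have hA' := Finset.mem_powerset.1 hA
    have htA : t ∉ A := fun h => htT0 (hA' h)
    have hc : G.IsClique ((insert t A : Finset V) : Set V) :=
      clique_sub G (by rw [hTT]; exact Finset.insert_subset_insert t hA') hT
    rw [Finset.card_insert_of_notMem htA, mul_assoc x, mul_assoc x, simple_mul_rep_insert G A t htA hc,
      ← rep_insert G A t htA hc, pow_succ]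
    ring
  · unfold fold
    simp only [hk _ T hT, mul_zero, Finset.sum_const_zero, neg_zero]

/-- chains of dimension `n` of the Davis complex, supported on the ball of radius `N` -/
structure Adm (n N : ℕ) (c : W G → Finset V → ℤ) : Prop where
  supp : ∀ w (T : Finset V), ¬ (G.IsClique (T : Set V) ∧ T.card = n) → c w T = 0
  anti : ∀ w (T : Finset V) t, t ∈ T → c (w * (cox G).simple t) T = - c w T
  bound : ∀ w T, N < len G w → c w T = 0

theorem Adm.bz {n N : ℕ} {c : W G → Finset V → ℤ} (h : Adm G (n + 1) N c) :
    Adm G n N (fun w => bz (c w)) where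
  supp w T hT := by
    refine Finset.sum_eq_zero fun v hv => ?_
    rw [h.supp w (insert v T), mul_zero]
    rintro ⟨h1, h2⟩
    rw [Finset.card_insert_of_notMem (Finset.mem_compl.1 hv)] at h2
    exact hT ⟨clique_sub G (Finset.subset_insert v T) h1, by omega⟩
  anti w T t ht := by
    show ∑ v ∈ Tᶜ, _ = - ∑ v ∈ Tᶜ, _
    rw [← Finset.sum_neg_distrib]
    refine Finset.sum_congr rfl fun v _ => ?_
    rw [h.anti w (insert v T) t (Finset.mem_insert_of_mem ht)]
    ring
  bound w T hw := Finset.sum_eq_zero fun v _ => by rw [h.bound w _ hw, mul_zero]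

theorem Adm.sub {n N : ℕ} {c d : W G → Finset V → ℤ} (h : Adm G n N c) (h' : Adm G n N d) :
    Adm G n N (fun w T => c w T - d w T) where
  supp w T hT := by rw [h.supp w T hT, h'.supp w T hT, sub_zero]
  anti w T t ht := by rw [h.anti w T t ht, h'.anti w T t ht]; ring
  bound w T hw := by rw [h.bound w T hw, h'.bound w T hw, sub_zero]

theorem Adm.add {n N : ℕ} {c d : W G → Finset V → ℤ} (h : Adm G n N c) (h' : Adm G n N d) :
    Adm G n N (fun w T => c w T + d w T) where
  supp w T hT := by rw [h.supp w T hT, h'.supp w T hT, add_zero]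
  anti w T t ht := by rw [h.anti w T t ht, h'.anti w T t ht]; ring
  bound w T hw := by rw [h.bound w T hw, h'.bound w T hw, add_zero]

theorem Adm.mono {n N M : ℕ} {c : W G → Finset V → ℤ} (h : Adm G n N c) (hNM : N ≤ M) : Adm G n M c where
  supp := h.supp
  anti := h.anti
  bound w T hw := h.bound w T (by omega)

/-- the elements of the support over a group element of maximal length consist of descents -/
theorem Adm.dn {n N : ℕ} {c : W G → Finset V → ℤ} (h : Adm G n N c) (w : W G) (hw : len G w = N) (T : Finset V)
    (hT : c w T ≠ 0) : ∀ t ∈ T, Dn G w t := by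
  intro t ht
  have h1 := h.anti w T t ht
  rcases len_mul_simple G w t with h2 | h2
  · rw [h.bound (w * (cox G).simple t) T (by omega)] at h1
    exact absurd (by omega) hT
  · unfold Dn
    omega

open Classical in
/-- the filling over the elements of length `N + 1` -/
def top (N : ℕ) (c : W G → Finset V → ℤ) (w : W G) (T : Finset V) : ℤ :=
  if h : 0 < len G w then
    (if len G w = N + 1 ∧ (∀ t ∈ T, Dn G w t) then cone (exists_dn G w h).choose (c w) T else 0) else 0

theorem top_ne {n N : ℕ} {c : W G → Finset V → ℤ} (h : Adm G n (N + 1) c) (w : W G) (T : Finset V)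
    (hT : top G N c w T ≠ 0) :
    len G w = N + 1 ∧ (∀ t ∈ T, Dn G w t) ∧ G.IsClique (T : Set V) ∧ T.card = n + 1 := by
  unfold top at hT
  split_ifs at hT with h1 h2
  · refine ⟨h2.1, h2.2, ?_, ?_⟩
    · intro a ha b hb hab
      exact dn_adj G w a b hab (h2.2 a (by exact_mod_cast ha)) (h2.2 b (by exact_mod_cast hb))
    · unfold cone at hT
      split_ifs at hT with h3
      · have h4 : c w (T.erase (exists_dn G w h1).choose) ≠ 0 := fun h0 => hT (by rw [h0, mul_zero])
        have h5 : (T.erase (exists_dn G w h1).choose).card = n := by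
          by_contra h5
          exact h4 (h.supp w _ fun h6 => h5 h6.2)
        rw [Finset.card_erase_of_mem h3] at h5
        have : 0 < T.card := Finset.card_pos.2 ⟨_, h3⟩
        omega
      · exact absurd rfl hT
  · exact absurd rfl hT
  · exact absurd rfl hT

theorem top_eq {n N : ℕ} {c : W G → Finset V → ℤ} (h : Adm G n (N + 1) c) (w : W G) (hw : len G w = N + 1) :
    ∃ s, top G N c w = cone s (c w) := by
  have h0 : 0 < len G w := by omega
  refine ⟨(exists_dn G w h0).choose, ?_⟩
  funext T
  unfold top
  rw [dif_pos h0]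
  split_ifs with h1
  · rfl
  · symm
    by_contra h2
    apply h1
    refine ⟨hw, ?_⟩
    unfold cone at h2
    split_ifs at h2 with h3
    · have h4 : c w (T.erase (exists_dn G w h0).choose) ≠ 0 := fun h0 => h2 (by rw [h0, mul_zero])
      have h5 := h.dn G w hw _ h4
      intro t ht
      by_cases h6 : t = (exists_dn G w h0).choose
      · rw [h6]
        exact (exists_dn G w h0).choose_spec
      · exact h5 t (Finset.mem_erase.2 ⟨h6, ht⟩)
    · exact absurd rfl h2

theorem rep_mul_self (A : Finset V) (hA : G.IsClique (A : Set V)) : rep G A * rep G A = 1 := by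
  induction A using Finset.induction_on with
  | empty => rw [rep_empty, one_mul]
  | insert s A hs ih =>
    have hA' := clique_sub G (Finset.subset_insert s A) hA
    have hcomm : rep G A * (cox G).simple s = (cox G).simple s * rep G A := by
      have : ∀ B : Finset V, B ⊆ A → rep G B * (cox G).simple s = (cox G).simple s * rep G B := by
        intro B
        induction B using Finset.induction_on with
        | empty => intro _; rw [rep_empty, one_mul, mul_one]
        | insert t B ht ihB =>
          intro hB
          have htA : t ∈ A := hB (Finset.mem_insert_self t B)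
          have hts : t ≠ s := fun h => hs (h ▸ htA)
          have hadj : G.Adj t s := hA (by simp [htA]) (by simp) hts
          rw [rep_insert G B t ht (clique_sub G hB hA'), mul_assoc,
            ihB (fun x hx => hB (Finset.mem_insert_of_mem hx)), ← mul_assoc, simple_comm G t s hadj, mul_assoc]
      exact this A (Finset.Subset.refl A)
    rw [rep_insert G A s hs hA]
    calc (cox G).simple s * rep G A * ((cox G).simple s * rep G A)
        = (cox G).simple s * (rep G A * (cox G).simple s) * rep G A := by simp only [mul_assoc]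
      _ = (cox G).simple s * (cox G).simple s * (rep G A * rep G A) := by rw [hcomm]; simp only [mul_assoc]
      _ = 1 := by rw [simple_mul_self, ih hA', one_mul]

theorem fold_adm {n N : ℕ} {c : W G → Finset V → ℤ} (h : Adm G n (N + 1) c) :
    Adm G (n + 1) (N + 1) (fold G (top G N c)) := by
  have key : ∀ w T, fold G (top G N c) w T ≠ 0 → G.IsClique (T : Set V) ∧ T.card = n + 1 ∧ len G w ≤ N + 1 := by
    intro w T hT
    obtain ⟨A, hA, hne⟩ := Finset.exists_ne_zero_of_sum_ne_zero hT
    have h1 : top G N c (w * rep G A) T ≠ 0 := fun h0 => hne (by rw [h0, mul_zero])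
    obtain ⟨h2, h3, h4, h5⟩ := top_ne G h _ _ h1
    have hA' := Finset.mem_powerset.1 hA
    have h6 := len_mul_rep G (w * rep G A) A fun s hs => h3 s (hA' hs)
    rw [mul_assoc, rep_mul_self G A (clique_sub G hA' h4), mul_one] at h6
    exact ⟨h4, h5, by omega⟩
  refine ⟨?_, ?_, ?_⟩
  · intro w T hT
    by_contra h0
    exact hT ⟨(key w T h0).1, (key w T h0).2.1⟩
  · intro w T t ht
    refine fold_anti G _ ?_ w T t ht
    intro w T hT
    by_contra h0
    exact hT (top_ne G h w T h0).2.2.1
  · intro w T hw
    by_contra h0
    have := (key w T h0).2.2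
    omega

theorem fold_top {n N : ℕ} {c : W G → Finset V → ℤ} (h : Adm G n (N + 1) c) (w : W G) (hw : len G w = N + 1) :
    fold G (top G N c) w = top G N c w := by
  funext T
  unfold fold
  rw [Finset.sum_eq_single ∅]
  · rw [rep_empty, mul_one, Finset.card_empty, pow_zero, one_mul]
  · intro A hA hne
    by_contra h0
    have h1 : top G N c (w * rep G A) T ≠ 0 := fun h1 => h0 (by rw [h1, mul_zero])
    obtain ⟨h2, h3, h4, h5⟩ := top_ne G h _ _ h1
    have hA' := Finset.mem_powerset.1 hA
    have h6 := len_mul_rep G (w * rep G A) A fun s hs => h3 s (hA' hs)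
    rw [mul_assoc, rep_mul_self G A (clique_sub G hA' h4), mul_one] at h6
    have : 0 < A.card := Finset.card_pos.2 (Finset.nonempty_iff_ne_empty.2 hne)
    omega
  · intro h0
    exact absurd (Finset.empty_mem_powerset T) h0

/-- **Cycles are boundaries**, up to multiples of the cell `(1, ∅)`. -/
theorem exact_main (n N : ℕ) : ∀ c : W G → Finset V → ℤ, Adm G n N c → (∀ w T, bz (c w) T = 0) →
    ∃ h, Adm G (n + 1) N h ∧ ∀ w T, (w ≠ 1 ∨ T ≠ ∅) → bz (h w) T = c w T := by
  induction N with
  | zero =>
    intro c hc _
    refine ⟨fun _ _ => 0, ⟨fun _ _ _ => rfl, fun _ _ _ _ => by simp, fun _ _ _ => rfl⟩, ?_⟩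
    intro w T h
    have h0 : bz (fun _ => (0 : ℤ)) T = 0 := Finset.sum_eq_zero fun v _ => mul_zero _
    rw [h0]
    symm
    by_contra h1
    have hw : w = 1 := by
      by_contra hw
      apply h1
      apply hc.bound
      exact Nat.pos_of_ne_zero fun h2 => hw ((cox G).toCoxeterSystem.length_eq_zero_iff.1 h2)
    rcases h with h | h
    · exact h hw
    · obtain ⟨t, ht⟩ := Finset.nonempty_iff_ne_empty.2 h
      have h2 := hc.dn G w (by rw [hw]; exact (cox G).toCoxeterSystem.length_one) T h1 t ht
      unfold Dn at h2
      have h3 : len G w = 0 := by rw [hw]; exact (cox G).toCoxeterSystem.length_one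
      omega
  | succ N ih =>
    intro c hc hz
    obtain ⟨h0, hh0⟩ : ∃ h0, h0 = fold G (top G N c) := ⟨_, rfl⟩
    have a0 : Adm G (n + 1) (N + 1) h0 := by rw [hh0]; exact fold_adm G hc
    have a1 : Adm G n (N + 1) (fun w T => c w T - bz (h0 w) T) := hc.sub G (Adm.bz G a0)
    have a2 : Adm G n N (fun w T => c w T - bz (h0 w) T) := by
      refine ⟨a1.supp, a1.anti, ?_⟩
      intro w T hw
      by_cases hw2 : len G w = N + 1
      · obtain ⟨s, hs⟩ := top_eq G hc w hw2
        have h1 : h0 w = cone s (c w) := by rw [hh0, fold_top G hc w hw2, hs]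
        have h2 := bz_cone s (c w) T
        have h3 : cone s (bz (c w)) T = 0 := by
          unfold cone
          split_ifs
          · rw [hz, mul_zero]
          · rfl
        show c w T - bz (h0 w) T = 0
        rw [h1]
        omega
      · exact a1.bound w T (by omega)
    obtain ⟨h', hh1, hh2⟩ := ih _ a2 (by
      intro w T
      have := bz_sub (c w) (bz (h0 w)) T
      rw [bz_bz, hz, sub_zero] at this
      exact this)
    refine ⟨fun w T => h0 w T + h' w T, a0.add G (hh1.mono G (by omega)), ?_⟩
    intro w T hwT
    have := bz_add (h0 w) (h' w) T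
    rw [hh2 w T hwT] at this
    show bz (fun T => h0 w T + h' w T) T = c w T
    rw [this]
    ring

end cliques

end Pool.Agent.V8H1.LT
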