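import Pool.Agent.V8H10.LT.Std

/-!
# Free resolutions of the trivial module
-/

set_option autoImplicit false

open scoped Matrix

noncomputable section

namespace Pool.Agent.V8H1.LT

open Pool.Agent.V8H10.LT Pool.Agent.N496.LT

/-- The augmentation: the sum of the coefficients. -/
def aug {G : Type} [Group G] (x : MonoidAlgebra ℤ G) : ℤ := x.coeff.sum fun _ a => a

/-- The complex `C` (extended by the augmentation which sends the cells of dimension `0` to `1`) is a free resolution
of the trivial `ℤ[G]`-module `ℤ`: there are cells of dimension `0`, a `0`-chain is a boundary if and only if the sum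
of its coefficients is `0`, and every `n`-cycle is a boundary for `n ≥ 1`. -/
def IsRes {G : Type} [Group G] (C : GCx G) : Prop :=
  (∃ i, C.deg i = 0) ∧
  (∀ v : C.ι → MonoidAlgebra ℤ G, (∀ i, C.deg i ≠ 0 → v i = 0) → (v ∈ bdy C 0 ↔ ∑ i, aug (v i) = 0)) ∧
  ∀ n, 1 ≤ n → cyc C n = bdy C n

end Pool.Agent.V8H1.LT
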