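import Pool.Agent.V8H1.LT.Dict
import Pool.Agent.V8H1.LT.ResDefs

/-!
# The chain complex of the Davis complex is a free resolution of the trivial module
-/

set_option autoImplicit false

open scoped Matrix

noncomputable section

namespace Pool.Agent.V8H1.LT

open Pool.Agent.W907.SG Pool.Agent.W461.SGN Pool.Agent.N496.LT

section aug

variable {Γ : Type} [Group Γ]

/-- the augmentation as a ring homomorphism -/
def augH (Γ : Type) [Group Γ] : MonoidAlgebra ℤ Γ →+* ℤ := (MonoidAlgebra.lift ℤ ℤ Γ 1).toRingHom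

theorem aug_eq (x : MonoidAlgebra ℤ Γ) : aug x = augH Γ x := by
  show _ = MonoidAlgebra.lift ℤ ℤ Γ 1 x
  rw [MonoidAlgebra.lift_apply]
  unfold aug
  refine Finsupp.sum_congr fun g _ => ?_
  simp

theorem augH_single (g : Γ) (a : ℤ) : augH Γ (MonoidAlgebra.single g a) = a := by
  show MonoidAlgebra.lift ℤ ℤ Γ 1 (MonoidAlgebra.single g a) = a
  rw [MonoidAlgebra.lift_single]
  simp

theorem isRes_of (C : GCx Γ) (h0 : ∃ i, C.deg i = 0)
    (ha : ∀ u : C.ι → MonoidAlgebra ℤ Γ, ∑ i, aug ((u ᵥ* C.D) i) = 0)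
    (h1 : ∀ v : C.ι → MonoidAlgebra ℤ Γ, (∀ i, C.deg i ≠ 0 → v i = 0) → ∑ i, aug (v i) = 0 →
      ∃ u : C.ι → MonoidAlgebra ℤ Γ, (∀ i, C.deg i ≠ 1 → u i = 0) ∧ u ᵥ* C.D = v)
    (h2 : ∀ n, 1 ≤ n → ∀ v : C.ι → MonoidAlgebra ℤ Γ, (∀ i, C.deg i ≠ n → v i = 0) → v ᵥ* C.D = 0 →
      ∃ u : C.ι → MonoidAlgebra ℤ Γ, (∀ i, C.deg i ≠ n + 1 → u i = 0) ∧ u ᵥ* C.D = v) : IsRes C := by
  have key : ∀ v ∈ Pool.Agent.V8H10.LT.bdy C 0, ∑ i, aug (v i) = 0 := by
    intro v h
    unfold Pool.Agent.V8H10.LT.bdy at h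
    induction h using AddSubgroup.closure_induction with
    | mem x hx =>
      obtain ⟨u, _, rfl⟩ := hx
      exact ha u
    | zero =>
      refine Finset.sum_eq_zero fun i _ => ?_
      rw [aug_eq, Pi.zero_apply, map_zero]
    | add x y _ _ hx hy =>
      have : ∀ i, aug ((x + y) i) = aug (x i) + aug (y i) := fun i => by
        rw [aug_eq, aug_eq, aug_eq, Pi.add_apply, map_add]
      rw [Finset.sum_congr rfl fun i _ => this i, Finset.sum_add_distrib, hx, hy, add_zero]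
    | neg x _ hx =>
      have : ∀ i, aug ((-x) i) = - aug (x i) := fun i => by
        rw [aug_eq, aug_eq, Pi.neg_apply, map_neg]
      rw [Finset.sum_congr rfl fun i _ => this i, Finset.sum_neg_distrib, hx, neg_zero]
  refine ⟨h0, ?_, ?_⟩
  · intro v hv
    constructor
    · exact key v
    · intro h
      obtain ⟨u, hu1, hu2⟩ := h1 v hv h
      exact AddSubgroup.subset_closure ⟨u, hu1, hu2⟩
  · intro n hn
    unfold Pool.Agent.V8H10.LT.cyc Pool.Agent.V8H10.LT.bdy
    congr 1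
    ext v
    constructor
    · rintro ⟨hv1, hv2⟩
      exact h2 n hn v hv1 hv2
    · rintro ⟨u, hu, rfl⟩
      refine ⟨?_, ?_⟩
      · intro i hi
        refine Finset.sum_eq_zero fun c _ => ?_
        by_cases hc : C.deg c = n + 1
        · have : C.D c i = 0 := by
            by_contra h
            have := C.D_deg c i h
            omega
          show u c * C.D c i = 0
          rw [this, mul_zero]
        · rw [hu c hc, zero_mul]
      · rw [Matrix.vecMul_vecMul, C.D_sq, Matrix.vecMul_zero]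

end aug

variable {V : Type} [Fintype V] [LinearOrder V] (G : SimpleGraph V)

theorem co_zero (w : W G) (T : Finset V) : co G 0 w T = 0 := by
  have := co_sub G 0 0 w T
  rw [sub_zero, sub_self] at this
  exact this

theorem fill (n : ℕ) (x : Cell G → ZK G) (hx : ∀ c : Cell G, c.1.1.card ≠ n → x c = 0)
    (hz : n = 0 ∨ x ᵥ* dv G = 0) :
    ∃ u : Cell G → ZK G, (∀ c : Cell G, c.1.1.card ≠ n + 1 → u c = 0) ∧
      ∀ w T, (w ≠ 1 ∨ T ≠ ∅) → co G (u ᵥ* dv G) w T = co G x w T := by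
  obtain ⟨N, hN⟩ := co_adm G n x hx
  have hz' : ∀ w T, bz (co G x w) T = 0 := by
    intro w T
    rcases hz with hz | hz
    · refine Finset.sum_eq_zero fun v _ => ?_
      rw [hN.supp w (insert v T), mul_zero]
      rintro ⟨_, h2⟩
      rw [hz, Finset.card_eq_zero] at h2
      exact Finset.insert_ne_empty v T h2
    · rw [← co_bd, hz, co_zero]
  obtain ⟨h, hh1, hh2⟩ := exact_main G n N (co G x) hN hz'
  obtain ⟨u, hu1, hu2⟩ := exists_co G h hh1
  refine ⟨u, hu2, ?_⟩
  intro w T hwT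
  rw [co_bd]
  have : co G u w = h w := funext fun T => hu1 w T
  rw [this, hh2 w T hwT]

theorem fill_pos (n : ℕ) (hn : 1 ≤ n) (x : Cell G → ZK G) (hx : ∀ c : Cell G, c.1.1.card ≠ n → x c = 0)
    (hz : x ᵥ* dv G = 0) :
    ∃ u : Cell G → ZK G, (∀ c : Cell G, c.1.1.card ≠ n + 1 → u c = 0) ∧ u ᵥ* dv G = x := by
  obtain ⟨u, hu1, hu2⟩ := fill G n x hx (Or.inr hz)
  refine ⟨u, hu1, co_inj G _ _ ?_⟩
  intro w T
  by_cases h : w ≠ 1 ∨ T ≠ ∅
  · exact hu2 w T h
  · have hT : T = ∅ := by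
      by_contra h1
      exact h (Or.inr h1)
    obtain ⟨N, hN⟩ := co_adm G n x hx
    obtain ⟨M, hM⟩ := co_adm G (n + 1) u hu1
    have h1 := (Adm.bz G hM).supp w T (by
      rintro ⟨_, h2⟩
      rw [hT, Finset.card_empty] at h2
      omega)
    have h2 := hN.supp w T (by
      rintro ⟨_, h2⟩
      rw [hT, Finset.card_empty] at h2
      omega)
    rw [co_bd, h2]
    exact h1

theorem row_sum (c : Cell G) : augH _ (∑ c' : Cell G, dv G c c') = 0 := by
  have h1 : ∑ c' : Cell G, dv G c c' = ∑ t ∈ c.1.1, ((sg t (c.1.1.erase t) : ℤ) : ZK G) *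
      (1 - gs G c.1.2 t * 1) := by
    have h2 : ∀ c' : Cell G, dv G c c' = ∑ t ∈ c.1.1,
        (if c'.1.1 = c.1.1.erase t then
        ((sg t (c.1.1.erase t) : ℤ) : MonoidAlgebra ℤ (th G).ker) *
        ((if c'.1.2 = c.1.2 then 1 else 0) - (if c'.1.2 = insert t c.1.2 then
          MonoidAlgebra.single (gm G (rep G c.1.2 * (cox G).simple t)) 1 else 0)) else 0) * 1 := fun c' => by
      rw [← Finset.sum_mul, mul_one]
      rfl
    rw [Finset.sum_congr rfl fun c' _ => h2 c', Finset.sum_comm]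
    exact Finset.sum_congr rfl fun t ht => row G c.1.1 c.1.2 c.2.1 c.2.2 t ht fun _ _ => 1
  rw [h1, map_sum]
  refine Finset.sum_eq_zero fun t _ => ?_
  unfold gs
  rw [map_mul, map_sub, map_one, map_mul, map_one, augH_single]
  simp

theorem aug_bd (u : Cell G → ZK G) : ∑ c : Cell G, aug ((u ᵥ* dv G) c) = 0 := by
  have h1 : ∀ c' : Cell G, aug ((u ᵥ* dv G) c') = ∑ c : Cell G, augH _ (u c) * augH _ (dv G c c') := by
    intro c'
    rw [aug_eq]
    show augH _ (∑ c, u c * dv G c c') = _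
    rw [map_sum]
    exact Finset.sum_congr rfl fun c _ => map_mul _ _ _
  rw [Finset.sum_congr rfl fun c' _ => h1 c', Finset.sum_comm]
  refine Finset.sum_eq_zero fun c _ => ?_
  rw [← Finset.mul_sum, ← map_sum, row_sum, mul_zero]

theorem fill_zero (x : Cell G → ZK G) (hx : ∀ c : Cell G, c.1.1.card ≠ 0 → x c = 0)
    (h0 : ∑ c : Cell G, aug (x c) = 0) :
    ∃ u : Cell G → ZK G, (∀ c : Cell G, c.1.1.card ≠ 1 → u c = 0) ∧ u ᵥ* dv G = x := by
  classical
  obtain ⟨u, hu1, hu2⟩ := fill G 0 x hx (Or.inl rfl)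
  refine ⟨u, hu1, ?_⟩
  obtain ⟨y, hy⟩ : ∃ y, y = x - u ᵥ* dv G := ⟨_, rfl⟩
  have hy1 : ∀ w T, (w ≠ 1 ∨ T ≠ ∅) → co G y w T = 0 := by
    intro w T h
    rw [hy, co_sub, hu2 w T h, sub_self]
  -- the base cell
  obtain ⟨c0, hc0⟩ : ∃ c0 : Cell G, c0.1 = (∅, ∅) := ⟨⟨(∅, ∅), by simp, by simp⟩, rfl⟩
  have hy2 : ∀ (c : Cell G) (γ : (th G).ker), (c ≠ c0 ∨ γ ≠ 1) → (y c).coeff γ = 0 := by
    intro c γ h
    rw [← co_cell]
    apply hy1
    by_contra h1
    rw [not_or, not_not, not_not] at h1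
    have hA : c.1.2 = ∅ := by
      have h2 := par_ker G γ c.1.2
      rw [h1.1] at h2
      rw [← h2]
      ext v
      rw [mem_par, map_one, Pi.one_apply]
      simp
    have hγ : γ = 1 := by
      apply Subtype.ext
      have h2 := h1.1
      rw [hA, rep_empty, mul_one] at h2
      exact h2
    rcases h with h | h
    · apply h
      apply Subtype.ext
      rw [hc0]
      exact Prod.ext h1.2 hA
    · exact h hγ
  have hy3 : ∑ c : Cell G, aug (y c) = 0 := by
    have : ∀ c, aug (y c) = aug (x c) - aug ((u ᵥ* dv G) c) := fun c => by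
      rw [hy, aug_eq, aug_eq, aug_eq, Pi.sub_apply, map_sub]
    rw [Finset.sum_congr rfl fun c _ => this c, Finset.sum_sub_distrib, h0, aug_bd, sub_zero]
  have hy4 : ∀ c, c ≠ c0 → y c = 0 := by
    intro c hc
    apply MonoidAlgebra.ext
    ext γ
    exact hy2 c γ (Or.inl hc)
  have hy5 : y c0 = MonoidAlgebra.single 1 ((y c0).coeff 1) := by
    apply MonoidAlgebra.ext
    ext γ
    by_cases hγ : γ = 1
    · subst hγ
      simp
    · rw [hy2 c0 γ (Or.inr hγ)]
      simp [Finsupp.single_apply, Ne.symm hγ]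
  have hy6 : y = 0 := by
    funext c
    by_cases hc : c = c0
    · rw [Finset.sum_eq_single c0 (fun c _ hc => by rw [hy4 c hc, aug_eq, map_zero])
        (fun h => absurd (Finset.mem_univ _) h), hy5, aug_eq, augH_single] at hy3
      rw [hc, hy5, hy3]
      simp
    · exact hy4 c hc
  rw [hy] at hy6
  exact (sub_eq_zero.1 hy6).symm

/-- **The cellular chain complex of the Davis complex is a free resolution of the trivial module.** -/
theorem davis_isRes : IsRes (Pool.Agent.V8H10.LT.davis G) := by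
  refine isRes_of (Pool.Agent.V8H10.LT.davis G) ?_ ?_ ?_ ?_
  · exact ⟨⟨(∅, ∅), by simp, by simp⟩, rfl⟩
  · exact aug_bd G
  · exact fill_zero G
  · exact fill_pos G

end Pool.Agent.V8H1.LT
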